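import Mathlib

set_option autoImplicit false

namespace Pool.Agent.Results.MP_03a7fb_al.HNSeries

open MvPowerSeries

abbrev R := MvPowerSeries (Fin 4) ℂ

noncomputable def J : R := C Complex.I

lemma J_sq : J ^ 2 = -1 := by
  unfold J; rw [← map_pow, Complex.I_sq]; simp

noncomputable def x : R := X 0 + J * X 2
noncomputable def y1 : R := X 0 - J * X 2
noncomputable def w : R := X 1 + J * X 3
noncomputable def y2 : R := X 1 - J * X 3
noncomputable def u : R := (1 - w)⁻¹
noncomputable def s : R := x * u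
noncomputable def P : R := y1 * s ^ 2 - 2 * y2 * s

lemma u_mul : u * (1 - w) = 1 := by
  unfold u
  refine MvPowerSeries.inv_mul_cancel _ ?_
  simp [w, J]

lemma dJ (d : Derivation ℂ R R) : d J = 0 := d.map_algebraMap Complex.I

lemma d2 (d : Derivation ℂ R R) : d 2 = 0 := d.map_natCast 2

lemma du (d : Derivation ℂ R R) : d u = d w * u ^ 2 := by
  have h := congrArg d u_mul
  simp only [Derivation.leibniz, map_sub, Derivation.map_one_eq_zero, smul_eq_mul] at h
  linear_combination u * h - d u * u_mul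

lemma ds (d : Derivation ℂ R R) : d s = (d x + d w * s) * u := by
  simp only [s, Derivation.leibniz, smul_eq_mul, du]; ring

lemma dP (d : Derivation ℂ R R) :
    d P = d y1 * s ^ 2 - 2 * d y2 * s + (2 * y1 * s - 2 * y2) * ((d x + d w * s) * u) := by
  simp only [P, map_sub, Derivation.leibniz, Derivation.leibniz_pow, smul_eq_mul, ds, d2]
  simp only [nsmul_eq_mul]
  push_cast
  ring

noncomputable def a1 : Fin 4 → R := ![1, 0, J, 0]
noncomputable def b1 : Fin 4 → R := ![1, 0, -J, 0]
noncomputable def a2 : Fin 4 → R := ![0, 1, 0, J]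
noncomputable def b2 : Fin 4 → R := ![0, 1, 0, -J]

lemma pX (i j : Fin 4) : pderiv ℂ i (X j : R) = if j = i then 1 else 0 := by
  split_ifs with h
  · subst h; exact pderiv_X_self
  · exact pderiv_X_of_ne h

lemma px (i : Fin 4) : pderiv ℂ i x = a1 i := by
  simp only [x, map_add, Derivation.leibniz, dJ, pX]; fin_cases i <;> simp [a1]
lemma py1 (i : Fin 4) : pderiv ℂ i y1 = b1 i := by
  simp only [y1, map_sub, Derivation.leibniz, dJ, pX]; fin_cases i <;> simp [b1]
lemma pw (i : Fin 4) : pderiv ℂ i w = a2 i := by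
  simp only [w, map_add, Derivation.leibniz, dJ, pX]; fin_cases i <;> simp [a2]
lemma py2 (i : Fin 4) : pderiv ℂ i y2 = b2 i := by
  simp only [y2, map_sub, Derivation.leibniz, dJ, pX]; fin_cases i <;> simp [b2]

lemma da1 (d : Derivation ℂ R R) (i : Fin 4) : d (a1 i) = 0 := by fin_cases i <;> simp [a1, dJ]
lemma db1 (d : Derivation ℂ R R) (i : Fin 4) : d (b1 i) = 0 := by fin_cases i <;> simp [b1, dJ]
lemma da2 (d : Derivation ℂ R R) (i : Fin 4) : d (a2 i) = 0 := by fin_cases i <;> simp [a2, dJ]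
lemma db2 (d : Derivation ℂ R R) (i : Fin 4) : d (b2 i) = 0 := by fin_cases i <;> simp [b2, dJ]

lemma nil3 (α p q : Fin 4 → R) (h1 : ∑ k, α k * α k = 0) (h2 : ∑ k, α k * p k = 0)
    (h3 : ∑ k, α k * q k = 0) : (Matrix.of fun i j => α i * p j + q i * α j) ^ 3 = 0 := by
  have e : (Matrix.of fun i j => α i * p j + q i * α j) ^ 2
      = Matrix.of fun i j => (∑ k, p k * q k) * α i * α j := by
    ext1 i j
    simp only [pow_two, Matrix.mul_apply, Matrix.of_apply, Fin.sum_univ_four] at *
    linear_combination α i * p j * h2 + q i * p j * h1 + q i * α j * h3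
  rw [pow_succ, e]
  ext1 i j
  simp only [Matrix.mul_apply, Matrix.of_apply, Matrix.zero_apply]
  generalize (∑ k, p k * q k) = t
  simp only [Fin.sum_univ_four] at *
  linear_combination t * α i * p j * h1 + t * α i * α j * h3

lemma hess : IsNilpotent (Matrix.of fun i j : Fin 4 => pderiv ℂ i (pderiv ℂ j P)) := by
  refine ⟨3, ?_⟩
  have e : (Matrix.of fun i j : Fin 4 => pderiv ℂ i (pderiv ℂ j P)) = Matrix.of fun i j =>
      (a1 i + a2 i * s) * ((2 * b1 j * s - 2 * b2 j) * u + (2 * y1 * s - 2 * y2) * u ^ 2 * a2 j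
        + 2 * y1 * u ^ 2 * (a1 j + a2 j * s))
      + ((2 * b1 i * s - 2 * b2 i) * u + (2 * y1 * s - 2 * y2) * u ^ 2 * a2 i) * (a1 j + a2 j * s) := by
    ext1 i j
    simp only [Matrix.of_apply]
    rw [dP, px, py1, pw, py2]
    simp only [map_add, map_sub, Derivation.leibniz, Derivation.leibniz_pow, smul_eq_mul, ds, du, d2,
      da1, db1, da2, db2, px, py1, pw, py2]
    simp only [nsmul_eq_mul]
    push_cast
    ring
  rw [e]
  refine nil3 (fun i => a1 i + a2 i * s) _ _ ?_ ?_ ?_
  · simp [Fin.sum_univ_four, a1, a2]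
    linear_combination (1 + s ^ 2) * J_sq
  · simp [Fin.sum_univ_four, a1, a2, b1, b2]
    linear_combination ((2 * y1 * s - 2 * y2) * u ^ 2 * s + 2 * y1 * u ^ 2 * (1 + s ^ 2)) * J_sq
  · simp [Fin.sum_univ_four, a1, a2, b1, b2]
    linear_combination ((2 * y1 * s - 2 * y2) * u ^ 2 * s) * J_sq

lemma pcomm (i j : Fin 4) (f : R) : pderiv ℂ i (pderiv ℂ j f) = pderiv ℂ j (pderiv ℂ i f) := by
  ext n
  simp only [coeff_pderiv, Finsupp.add_apply]
  rw [add_right_comm]
  by_cases h : i = j
  · subst h; rfl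
  · rw [Finsupp.single_eq_of_ne h, Finsupp.single_eq_of_ne (Ne.symm h)]
    simp only [add_zero]
    ring

noncomputable def D1 : Derivation ℂ R R := pderiv ℂ 0 - J • pderiv ℂ 2
noncomputable def E1 : Derivation ℂ R R := pderiv ℂ 0 + J • pderiv ℂ 2
noncomputable def D2 : Derivation ℂ R R := pderiv ℂ 1 - J • pderiv ℂ 3
noncomputable def E2 : Derivation ℂ R R := pderiv ℂ 1 + J • pderiv ℂ 3

noncomputable def Lap (Q : R) : R := ∑ i, pderiv ℂ i (pderiv ℂ i Q)

lemma Lap_eq (Q : R) : Lap Q = D1 (E1 Q) + D2 (E2 Q) := by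
  simp only [Lap, Fin.sum_univ_four, D1, E1, D2, E2, Derivation.add_apply, Derivation.sub_apply,
    Derivation.smul_apply, map_add, smul_eq_mul, Derivation.leibniz, dJ]
  rw [pcomm 0 2, pcomm 1 3]
  linear_combination (pderiv ℂ 2 (pderiv ℂ 2 Q) + pderiv ℂ 3 (pderiv ℂ 3 Q)) * J_sq

lemma E2_Lap (Q : R) : E2 (Lap Q) = Lap (E2 Q) := by
  simp only [Lap, E2, Derivation.add_apply, Derivation.smul_apply, map_add, map_sum, smul_eq_mul,
    Derivation.leibniz, dJ, mul_zero, add_zero]
  refine Finset.sum_congr rfl fun i _ => ?_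
  rw [pcomm 1 i, pcomm 1 i, pcomm 3 i, pcomm 3 i]

lemma vals : (D1 x = 2 ∧ D1 y1 = 0 ∧ D1 w = 0 ∧ D1 y2 = 0) ∧
    (E1 x = 0 ∧ E1 y1 = 2 ∧ E1 w = 0 ∧ E1 y2 = 0) ∧ (D2 x = 0 ∧ D2 y1 = 0 ∧ D2 w = 2 ∧ D2 y2 = 0) ∧
    (E2 x = 0 ∧ E2 y1 = 0 ∧ E2 w = 0 ∧ E2 y2 = 2) := by
  have h : J * J = -1 := by rw [← pow_two, J_sq]
  simp only [D1, E1, D2, E2, Derivation.add_apply, Derivation.sub_apply, Derivation.smul_apply,
    px, py1, pw, py2, smul_eq_mul]
  simp [a1, a2, b1, b2, h]
  norm_num

noncomputable def mono (k l n a : ℕ) : R := y1 ^ k * y2 ^ l * s ^ n * u ^ a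

lemma pow_der (d : Derivation ℂ R R) (f g : R) (h : d f = f * g) (n : ℕ) :
    d (f ^ n) = n * f ^ n * g := by
  induction n with
  | zero => simp
  | succ n ih =>
    rw [pow_succ, Derivation.leibniz, ih, h]
    simp only [smul_eq_mul]
    push_cast
    ring

lemma Lap_mono (k l n a : ℕ) : Lap (mono k l n a) =
    4 * k * n * mono (k - 1) l (n - 1) (a + 1) + 4 * l * (n + a) * mono k (l - 1) n (a + 1) := by
  obtain ⟨⟨c1, c2, c3, c4⟩, ⟨c5, c6, c7, c8⟩, ⟨c9, c10, c11, c12⟩, ⟨c13, c14, c15, c16⟩⟩ := vals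
  have e1 : E1 (mono k l n a) = 2 * k * mono (k - 1) l n a := by
    simp only [mono, Derivation.leibniz, Derivation.leibniz_pow, ds, du, c5, c6, c7, c8,
      smul_eq_mul, nsmul_eq_mul]
    ring
  have e2 : E2 (mono k l n a) = 2 * l * mono k (l - 1) n a := by
    simp only [mono, Derivation.leibniz, Derivation.leibniz_pow, ds, du, c13, c14, c15, c16,
      smul_eq_mul, nsmul_eq_mul]
    ring
  have e3 : ∀ k, D1 (mono k l n a) = 2 * n * mono k l (n - 1) (a + 1) := by
    intro k
    simp only [mono, Derivation.leibniz, Derivation.leibniz_pow, ds, du, c1, c2, c3, c4,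
      smul_eq_mul, nsmul_eq_mul]
    ring
  have e4 : ∀ l, D2 (mono k l n a) = 2 * (n + a) * mono k l n (a + 1) := by
    intro l
    have f1 := pow_der D2 s (2 * u) (by rw [ds, c9, c11]; ring) n
    have f2 := pow_der D2 u (2 * u) (by rw [du, c11]; ring) a
    simp only [mono, Derivation.leibniz, f1, f2, smul_eq_mul]
    simp only [Derivation.leibniz_pow, c10, c12, smul_eq_mul, nsmul_eq_mul]
    ring
  rw [Lap_eq, e1, e2]
  simp only [Derivation.leibniz, d2, Derivation.map_natCast, e3, e4, smul_eq_mul]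
  ring

lemma Lap_add (f g : R) : Lap (f + g) = Lap f + Lap g := by
  simp only [Lap_eq, map_add]; ring

lemma Lap_int (c : ℤ) (f : R) : Lap (c * f) = c * Lap f := by
  have h : ∀ (d : Derivation ℂ R R) (g : R), d (c * g) = c * d g := by
    intro d g
    rw [Derivation.leibniz, Derivation.map_intCast]; simp
  simp only [Lap_eq, h]; ring

lemma int_ne {c : ℤ} (h : c ≠ 0) : (c : R) ≠ 0 := by
  intro h1
  have h2 := congrArg (constantCoeff (σ := Fin 4) (R := ℂ)) h1
  rw [map_intCast, map_zero] at h2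
  exact h (by exact_mod_cast h2)

lemma It_add (j : ℕ) (f g : R) : Lap^[j] (f + g) = Lap^[j] f + Lap^[j] g := by
  induction j generalizing f g with
  | zero => rfl
  | succ j ih => simp only [Function.iterate_succ_apply, Lap_add, ih]

lemma It_int (j : ℕ) (c : ℤ) (f : R) : Lap^[j] (c * f) = c * Lap^[j] f := by
  induction j generalizing f with
  | zero => rfl
  | succ j ih => simp only [Function.iterate_succ_apply, Lap_int, ih]

lemma It_sum (j : ℕ) (t : Finset ℕ) (f : ℕ → R) : Lap^[j] (∑ i ∈ t, f i) = ∑ i ∈ t, Lap^[j] (f i) := by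
  induction t using Finset.induction_on with
  | empty => simpa using It_int j 0 0
  | insert a t ha ih => rw [Finset.sum_insert ha, Finset.sum_insert ha, It_add, ih]

lemma It_mono (j : ℕ) : ∀ k l n a : ℕ, k + l = j → Lap^[j] (mono k l n a) =
    ((4 ^ j * j.factorial * (n.descFactorial k * (n + a).ascFactorial l) : ℕ) : R) *
      mono 0 0 (n - k) (a + j) := by
  induction j with
  | zero =>
    intro k l n a h
    obtain ⟨rfl, rfl⟩ : k = 0 ∧ l = 0 := by omega
    simp
  | succ j ih =>
    intro k l n a h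
    rw [Function.iterate_succ_apply, Lap_mono, It_add]
    have e1 : Lap^[j] (4 * k * n * mono (k - 1) l (n - 1) (a + 1)) =
        ((4 ^ (j + 1) * j.factorial * k * (n.descFactorial k * (n + a).ascFactorial l) : ℕ) : R) *
          mono 0 0 (n - k) (a + (j + 1)) := by
      have := It_int j (4 * k * n) (mono (k - 1) l (n - 1) (a + 1))
      push_cast at this
      rw [this]
      rcases k with _ | k
      · simp
      · rcases n with _ | n
        · simp
        · rw [ih (k + 1 - 1) l (n + 1 - 1) (a + 1) (by omega)]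
          simp only [Nat.add_sub_cancel, Nat.succ_descFactorial_succ, Nat.add_sub_add_right]
          rw [show n + (a + 1) = n + 1 + a by ring, show a + 1 + j = a + (j + 1) by ring]
          push_cast
          ring
    have e2 : Lap^[j] (4 * l * (n + a) * mono k (l - 1) n (a + 1)) =
        ((4 ^ (j + 1) * j.factorial * l * (n.descFactorial k * (n + a).ascFactorial l) : ℕ) : R) *
          mono 0 0 (n - k) (a + (j + 1)) := by
      have := It_int j (4 * l * (n + a)) (mono k (l - 1) n (a + 1))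
      push_cast at this
      rw [this]
      rcases l with _ | l
      · simp
      · rw [ih k (l + 1 - 1) n (a + 1) (by omega)]
        have f := Nat.succ_ascFactorial (n + a) l
        rw [← Nat.ascFactorial_succ] at f
        simp only [Nat.add_sub_cancel]
        rw [← f, show n + (a + 1) = (n + a).succ by rfl, show a + 1 + j = a + (j + 1) by ring]
        push_cast
        ring
    rw [e1, e2, Nat.factorial_succ, ← h]
    push_cast
    ring

lemma u_ne : u ≠ 0 := fun h => by simpa [h] using u_mul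

lemma x_ne : x ≠ 0 := fun h => by
  have := px 0
  rw [h] at this
  simp [a1] at this

lemma key (m : ℕ) : Lap^[m] (s * P ^ m) ≠ 0 := by
  have e1 : s * P ^ m = ∑ k ∈ Finset.range (m + 1),
      ((m.choose k * (-2) ^ (m - k) : ℤ) : R) * mono k (m - k) (m + 1 + k) 0 := by
    rw [P, sub_eq_add_neg, add_pow, Finset.mul_sum]
    refine Finset.sum_congr rfl fun k hk => ?_
    obtain ⟨l, rfl⟩ := Nat.exists_eq_add_of_le (Nat.lt_succ_iff.1 (Finset.mem_range.1 hk))
    simp only [mono, Nat.add_sub_cancel_left]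
    rw [show -(2 * y2 * s) = -2 * (y2 * s) by ring, mul_pow (-2)]
    push_cast
    ring
  let c : ℤ := ∑ k ∈ Finset.range (m + 1), (m.choose k * (-2) ^ (m - k) : ℤ) *
    (((m + 1 + k).descFactorial k * (m + 1 + k).ascFactorial (m - k) : ℕ) : ℤ)
  have e2 : Lap^[m] (s * P ^ m) = ((4 ^ m * m.factorial * c : ℤ) : R) * mono 0 0 (m + 1) m := by
    rw [e1, It_sum]
    simp only [c]
    push_cast
    rw [Finset.mul_sum, Finset.sum_mul]
    refine Finset.sum_congr rfl fun k hk => ?_
    have hk' := Nat.lt_succ_iff.1 (Finset.mem_range.1 hk)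
    have := It_int m (m.choose k * (-2) ^ (m - k)) (mono k (m - k) (m + 1 + k) 0)
    push_cast at this
    rw [this, It_mono m k (m - k) _ 0 (by omega)]
    simp only [Nat.add_sub_cancel, add_zero, zero_add]
    push_cast
    ring
  have e3 : ((m + 1).factorial : ℤ) * c = (2 * m).factorial * ∑ k ∈ Finset.range (m + 1),
      (m.choose k * (-2) ^ (m - k) : ℤ) * (m + 1 + k) := by
    simp only [c]
    rw [Finset.mul_sum, Finset.mul_sum]
    refine Finset.sum_congr rfl fun k hk => ?_
    obtain ⟨l, rfl⟩ := Nat.exists_eq_add_of_le (Nat.lt_succ_iff.1 (Finset.mem_range.1 hk))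
    have f1 := Nat.factorial_mul_descFactorial (n := k + l + 1 + k) (k := k) (by omega)
    have f2 := Nat.factorial_mul_ascFactorial (k + l + k) l
    rw [Nat.add_sub_cancel] at f1
    rw [show k + l + k + l = 2 * (k + l) by ring, show k + l + k + 1 = k + l + 1 + k by ring] at f2
    have f3 : (k + l + 1 + k).factorial = (k + l + 1 + k) * (k + l + k).factorial := by
      rw [show k + l + 1 + k = k + l + k + 1 by ring, Nat.factorial_succ]
    have f4 : (k + l + 1).factorial * ((k + l + 1 + k).descFactorial k *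
        (k + l + 1 + k).ascFactorial l) = (2 * (k + l)).factorial * (k + l + 1 + k) := by
      rw [← mul_assoc, f1, f3, ← f2]; ring
    have f5 := congrArg (Nat.cast : ℕ → ℤ) f4
    simp only [Nat.add_sub_cancel_left]
    push_cast at f5 ⊢
    linear_combination (((k + l).choose k : ℤ) * (-2) ^ l) * f5
  have e4 : Odd (∑ k ∈ Finset.range (m + 1), (m.choose k * (-2) ^ (m - k) : ℤ) * (m + 1 + k)) := by
    rw [Finset.sum_range_succ]
    refine Even.add_odd (Finset.even_sum _ fun k hk => ?_) ⟨m, by simp; ring⟩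
    refine (Even.mul_left ?_ _).mul_right _
    exact (Int.even_pow.2 ⟨by decide, Nat.sub_ne_zero_of_lt (Finset.mem_range.1 hk)⟩)
  have e5 : c ≠ 0 := by
    intro h
    rw [h, mul_zero] at e3
    rcases mul_eq_zero.1 e3.symm with h | h
    · exact Nat.factorial_ne_zero _ (by exact_mod_cast h)
    · rw [h] at e4; exact absurd e4 (by decide)
  rw [e2]
  refine mul_ne_zero ?_ ?_
  · exact int_ne (mul_ne_zero (by positivity) e5)
  · simp only [mono, pow_zero, one_mul]
    exact mul_ne_zero (pow_ne_zero _ (mul_ne_zero x_ne u_ne)) (pow_ne_zero _ u_ne)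

lemma E2_It (j : ℕ) (Q : R) : E2 (Lap^[j] Q) = Lap^[j] (E2 Q) := by
  induction j generalizing Q with
  | zero => rfl
  | succ j ih => simp only [Function.iterate_succ_apply, ih, E2_Lap]

/-- A non-polynomial Hessian nilpotent power series in four variables for which the vanishing
property fails at every exponent. -/
theorem result : ∃ P : MvPowerSeries (Fin 4) ℂ,
    (∀ p : MvPolynomial (Fin 4) ℂ, (p : MvPowerSeries (Fin 4) ℂ) ≠ P) ∧
    IsNilpotent (Matrix.of fun i j : Fin 4 => pderiv ℂ i (pderiv ℂ j P)) ∧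
    ∀ m : ℕ, (fun Q : MvPowerSeries (Fin 4) ℂ => ∑ i, pderiv ℂ i (pderiv ℂ i Q))^[m]
      (P ^ (m + 1)) ≠ 0 := by
  refine ⟨P, ?_, hess, ?_⟩
  · intro p hp
    let j : MvPolynomial (Fin 4) ℂ := MvPolynomial.C Complex.I
    let z : Fin 4 → MvPolynomial (Fin 4) ℂ := MvPolynomial.X
    have h1 : p * (1 - (z 1 + j * z 3)) ^ 2 = (z 0 - j * z 2) * (z 0 + j * z 2) ^ 2
        - 2 * (z 1 - j * z 3) * (z 0 + j * z 2) * (1 - (z 1 + j * z 3)) := by
      apply MvPolynomial.coe_injective
      have h2 : P * (1 - w) ^ 2 = y1 * x ^ 2 - 2 * y2 * x * (1 - w) := by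
        unfold P s
        linear_combination (y1 * x ^ 2 * (u * (1 - w) + 1) - 2 * y2 * x * (1 - w)) * u_mul
      have h3 : ∀ q : MvPolynomial (Fin 4) ℂ, (q : R) = MvPolynomial.coeToMvPowerSeries.ringHom q :=
        fun _ => rfl
      rw [h3, h3]
      simp only [map_mul, map_sub, map_add, map_pow, map_one, map_ofNat]
      simp only [← h3, z, j, MvPolynomial.coe_X, MvPolynomial.coe_C, hp]
      exact h2
    have h4 := congrArg (MvPolynomial.eval ![1, 1, 0, 0]) h1
    simp [z, j] at h4
  · intro m h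
    have h1 : Lap^[m] (P ^ (m + 1)) = 0 := h
    have h2 := congrArg E2 h1
    obtain ⟨-, -, -, ⟨c13, c14, c15, c16⟩⟩ := vals
    have h3 : E2 (P ^ (m + 1)) = ((-4 * (m + 1) : ℤ) : R) * (s * P ^ m) := by
      rw [Derivation.leibniz_pow, dP, c13, c14, c15, c16]
      simp only [smul_eq_mul, nsmul_eq_mul, Nat.add_sub_cancel]
      push_cast
      ring
    rw [E2_It, h3, It_int, map_zero] at h2
    rcases mul_eq_zero.1 h2 with h4 | h4
    · exact int_ne (by omega) h4
    · exact key m h4

end Pool.Agent.Results.MP_03a7fb_al.HNSeries
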